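import Mathlib

namespace Pool.Agent.Results.MP_936e79_co.Unbounded

open Finset

/-- `c 0, c 1, ..., c (n-1)` is a simple cycle of `G` -/
def IsCyc {V : Type} (G : SimpleGraph V) {n : ℕ} (c : Fin n → V) : Prop :=
  3 ≤ n ∧ Function.Injective c ∧ ∀ i j : Fin n, j.val = (i.val + 1) % n → G.Adj (c i) (c j)

/-- distance along the cycle -/
def dC {n : ℕ} (i j : Fin n) : ℕ := min (Nat.dist i.val j.val) (n - Nat.dist i.val j.val)

def LocGeo {V : Type} (G : SimpleGraph V) (m : ℕ) {n : ℕ} (c : Fin n → V) : Prop :=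
  ∀ i j, G.dist (c i) (c j) = dC i j → dC i j ≤ m

def Bridge {V : Type} (G : SimpleGraph V) (k : ℕ) {n : ℕ} (c : Fin n → V) (i j : Fin n) : Prop :=
  G.dist (c i) (c j) ≤ k ∧ k < dC i j

/-- the arc with `m + 1` edges starting at position `i` -/
def arc (m : ℕ) {n : ℕ} (i : Fin n) : Set (Fin n) := {j | ∃ t ≤ m + 1, j.val = (i.val + t) % n}

/-- that arc is a side of non-`m`-locality -/
def Side {V : Type} (G : SimpleGraph V) (m : ℕ) {n : ℕ} (c : Fin n → V) (i : Fin n) : Prop :=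
  ∃ j : Fin n, j.val = (i.val + (m + 1)) % n ∧ G.dist (c i) (c j) = m + 1 ∧ dC i j = m + 1

noncomputable def bgc {V : Type} (G : SimpleGraph V) : ℕ :=
  sInf {m | 1 ≤ m ∧ ∀ (n : ℕ) (c : Fin n → V), IsCyc G c → ¬ LocGeo G m c → ∀ i, Side G m c i →
    ∃ v z, v ∈ arc m i ∧ z ∉ arc m i ∧ Bridge G ((m + 1) / 2) c v z}

noncomputable def BGC {V : Type} (G : SimpleGraph V) : ℕ :=
  sInf {m | 1 ≤ m ∧ ∀ (n : ℕ) (c : Fin n → V), IsCyc G c → ¬ LocGeo G m c →
    ∃ v z, Bridge G ((m + 1) / 2) c v z}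

abbrev W (h : ℕ) := {p : ℕ × ℕ // p ∈ (range (h + 1) ×ˢ range (2 ^ h)).filter (fun p => p.2 < 2 ^ p.1)}

lemma memW {h : ℕ} {p : ℕ × ℕ} : p ∈ (range (h + 1) ×ˢ range (2 ^ h)).filter (fun p => p.2 < 2 ^ p.1)
    ↔ p.1 ≤ h ∧ p.2 < 2 ^ p.1 := by
  simp only [mem_filter, mem_product, mem_range, Nat.lt_succ_iff]
  exact ⟨fun h => ⟨h.1.1, h.2⟩, fun h => ⟨⟨h.1, h.2.trans_le (Nat.pow_le_pow_right (by omega) h.1)⟩, h.2⟩⟩

def GG (h : ℕ) : SimpleGraph (W h) where
  Adj u v := (u.1.1 = v.1.1 ∧ (u.1.2 + 1 = v.1.2 ∨ v.1.2 + 1 = u.1.2)) ∨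
    (u.1.1 + 1 = v.1.1 ∧ u.1.2 = v.1.2 / 2) ∨ (v.1.1 + 1 = u.1.1 ∧ v.1.2 = u.1.2 / 2)
  symm := ⟨fun u v h => by omega⟩
  loopless := ⟨fun u h => by omega⟩

lemma adj_iff {h : ℕ} (u v : W h) : (GG h).Adj u v ↔
    (u.1.1 = v.1.1 ∧ (u.1.2 + 1 = v.1.2 ∨ v.1.2 + 1 = u.1.2)) ∨
    (u.1.1 + 1 = v.1.1 ∧ u.1.2 = v.1.2 / 2) ∨ (v.1.1 + 1 = u.1.1 ∧ v.1.2 = u.1.2 / 2) := Iff.rfl

lemma conn (h : ℕ) : (GG h).Connected := by
  let r : W h := ⟨(0, 0), memW.2 (by simp)⟩
  have : ∀ i, ∀ v : W h, v.1.1 = i → (GG h).Reachable v r := by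
    intro i
    induction i with
    | zero =>
      intro v hv
      have := (memW.1 v.2).2
      rw [hv] at this
      have : v = r := Subtype.ext (Prod.ext hv (by simpa using this))
      rw [this]
    | succ i ih =>
      intro v hv
      have := memW.1 v.2
      rw [hv, pow_succ] at this
      refine SimpleGraph.Reachable.trans (SimpleGraph.Adj.reachable ?_)
        (ih ⟨(i, v.1.2 / 2), memW.2 ⟨by simp only; omega, by simp only; omega⟩⟩ rfl)
      rw [adj_iff]; simp only [and_true]; omega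
  have _ : Nonempty (W h) := ⟨r⟩
  exact ⟨fun u v => (this _ u rfl).trans (this _ v rfl).symm⟩

lemma lip {V : Type} {G : SimpleGraph V} (hc : G.Connected) (f : V → ℕ)
    (hf : ∀ u v, G.Adj u v → f v ≤ f u + 1) (u v : V) : f v ≤ f u + G.dist u v := by
  obtain ⟨p, hp⟩ := hc.exists_walk_length_eq_dist u v
  rw [← hp]
  clear hp
  induction p with
  | nil => simp
  | cons h q ih =>
    have := hf _ _ h
    simp only [SimpleGraph.Walk.length_cons]
    omega

lemma lev {h : ℕ} (u v : W h) : v.1.1 ≤ u.1.1 + (GG h).dist u v :=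
  lip (conn h) (fun v => v.1.1) (fun u v h => by rw [adj_iff] at h; omega) u v

lemma lg {h : ℕ} (u v : W h) : Nat.log 2 (v.1.2 + 1) ≤ Nat.log 2 (u.1.2 + 1) + (GG h).dist u v := by
  refine lip (conn h) (fun v => Nat.log 2 (v.1.2 + 1)) (fun u v h => ?_) u v
  rw [adj_iff] at h
  rw [← Nat.log_mul_base (by omega) (by omega)]
  apply Nat.log_mono_right
  omega

lemma short {h : ℕ} {M p l w : W h} (h1 : p.1.1 + 1 = M.1.1) (h2 : p.1.2 = M.1.2 / 2)
    (h3 : l.1.1 = M.1.1) (h4 : l.1.2 + 1 = M.1.2) (h5 : (GG h).Adj l w) (h6 : w.1.1 ≤ M.1.1)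
    (h7 : w ≠ M) : (GG h).dist p w ≤ 2 := by
  have h8 : ¬ (w.1.1 = M.1.1 ∧ w.1.2 = M.1.2) := fun e => h7 (Subtype.ext (Prod.ext e.1 e.2))
  rw [adj_iff] at h5
  by_cases e : w.1.1 = M.1.1
  · have hp := memW.1 p.2
    let q : W h := ⟨(p.1.1, p.1.2 - 1), memW.2 ⟨hp.1, lt_of_le_of_lt (Nat.sub_le _ _) hp.2⟩⟩
    have a1 : (GG h).Adj p q := by rw [adj_iff]; simp only [q, true_and]; omega
    have a2 : (GG h).Adj q w := by rw [adj_iff]; simp only [q]; omega
    simpa using SimpleGraph.dist_le (SimpleGraph.Walk.cons a1 (SimpleGraph.Walk.cons a2 .nil))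
  · by_cases e2 : p = w
    · simp [e2]
    · have h9 : ¬ (p.1.1 = w.1.1 ∧ p.1.2 = w.1.2) := fun e => e2 (Subtype.ext (Prod.ext e.1 e.2))
      have a1 : (GG h).Adj p w := by rw [adj_iff]; omega
      rw [SimpleGraph.dist_eq_one_iff_adj.2 a1]; omega

lemma mod_eq {a n : ℕ} (h : a < 2 * n) : a % n = if a < n then a else a - n := by
  split_ifs with h1
  · exact Nat.mod_eq_of_lt h1
  · rw [Nat.mod_eq_sub_mod (by omega), Nat.mod_eq_of_lt (by omega)]

lemma BGC_le (h : ℕ) : BGC (GG h) ≤ 3 := by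
  refine Nat.sInf_le ⟨by omega, fun n c ⟨h3, hi, ha⟩ hl => ?_⟩
  have h8 : 8 ≤ n := by
    by_contra h8
    apply hl
    intro i j _
    simp only [dC]
    omega
  obtain ⟨m, -, hm⟩ := exists_max_image univ (fun i => toLex (c i).1) ⟨⟨0, by omega⟩, mem_univ _⟩
  simp only [mem_univ, true_implies, Prod.Lex.toLex_le_toLex] at hm
  have hm0 := m.isLt
  let ix : ℕ → Fin n := fun t => ⟨if m.val + t < n then m.val + t else
    if m.val + t < 2 * n then m.val + t - n else 0, by split_ifs <;> omega⟩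
  have e0 : ix 0 = m := Fin.ext (by simp [ix])
  have st : ∀ s t, s < n → t < n → (t = s + 1 ∨ (s + 1 = n ∧ t = 0)) → (GG h).Adj (c (ix s)) (c (ix t)) := by
    intro s t h1 h2 h3
    apply ha
    rw [mod_eq (by have := (ix s).isLt; omega)]
    simp only [ix]
    split_ifs <;> omega
  have ne : ∀ s t, s < n → t < n → s ≠ t → c (ix s) ≠ c (ix t) := by
    intro s t h1 h2 h3 e
    have := congrArg Fin.val (hi e)
    simp only [ix] at this
    split_ifs at this <;> omega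
  have a1 := st 0 1 (by omega) (by omega) (by omega)
  have a2 := st 1 2 (by omega) (by omega) (by omega)
  have a3 := st (n - 1) 0 (by omega) (by omega) (by omega)
  have a4 := st (n - 2) (n - 1) (by omega) (by omega) (by omega)
  have n1 := ne 1 (n - 1) (by omega) (by omega) (by omega)
  have n2 := ne 2 0 (by omega) (by omega) (by omega)
  have n3 := ne (n - 2) 0 (by omega) (by omega) (by omega)
  rw [e0] at a1 a3 n2 n3
  have m1 := hm (ix 1)
  have m2 := hm (ix 2)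
  have m3 := hm (ix (n - 1))
  have m4 := hm (ix (n - 2))
  have n1' : ¬ ((c (ix 1)).1.1 = (c (ix (n - 1))).1.1 ∧ (c (ix 1)).1.2 = (c (ix (n - 1))).1.2) :=
    fun e => n1 (Subtype.ext (Prod.ext e.1 e.2))
  rw [adj_iff] at a1 a3
  by_cases e : (c (ix 1)).1.1 = (c m).1.1
  · refine ⟨ix (n - 1), ix 2, short (M := c m) (l := c (ix 1)) (by omega) (by omega) e (by omega) a2
      (by omega) n2, ?_⟩
    simp only [dC, ix, Nat.dist]
    split_ifs <;> omega
  · refine ⟨ix 1, ix (n - 2), short (M := c m) (l := c (ix (n - 1))) (by omega) (by omega) (by omega)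
      (by omega) a4.symm (by omega) n3, ?_⟩
    simp only [dC, ix, Nat.dist]
    split_ifs <;> omega

def gg (h t : ℕ) : ℕ × ℕ :=
  if t < h then (t, 2 ^ t - 1) else if t < h + 2 ^ h then (h, h + 2 ^ h - 1 - t)
  else (2 * h + 2 ^ h - 1 - t, 0)

def cc (h : ℕ) (t : Fin (2 * h + 2 ^ h - 1)) : W h := ⟨gg h t.val, by
  rw [memW]
  unfold gg
  have := Nat.two_pow_pos t.val
  split_ifs <;> simp <;> omega⟩

lemma cyc (h : ℕ) (h2 : 2 ≤ h) : IsCyc (GG h) (cc h) := by
  have hp := Nat.two_pow_pos h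
  refine ⟨by omega, fun i j e => ?_, fun i j e => ?_⟩
  · have e' : gg h i = gg h j := congrArg Subtype.val e
    have := i.isLt
    have := j.isLt
    have k : ∀ t, 2 ^ t - 1 = 0 → t = 0 := by
      intro t ht
      by_contra h0
      have := Nat.one_lt_two_pow h0
      omega
    have := k i
    have := k j
    apply Fin.ext
    unfold gg at e'
    split_ifs at e' <;> simp only [Prod.mk.injEq] at e' <;> omega
  · have hi := i.isLt
    rw [mod_eq (by omega)] at e
    rw [adj_iff]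
    have e1 : (cc h i).1 = gg h i.val := rfl
    have e2 : (cc h j).1 = gg h j.val := rfl
    rw [e1, e2]
    generalize i.val = a at *
    generalize j.val = b at *
    clear e1 e2
    have p1 : 2 ^ (a + 1) = 2 * 2 ^ a := by ring
    have p2 := Nat.two_pow_pos a
    have p3 : a + 1 = h → 2 ^ h = 2 * 2 ^ a := fun e => by rw [← p1, e]
    split_ifs at e with e1
    · subst e
      unfold gg
      rw [p1]
      generalize 2 ^ h = P at *
      generalize 2 ^ a = Q at *
      split_ifs <;> simp only [true_and, and_true] <;> omega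
    · have : b = 0 := by omega
      subst this
      unfold gg
      generalize 2 ^ h = P at *
      generalize 2 ^ a = Q at *
      split_ifs <;> simp only [true_and, and_true, pow_zero] <;> omega

lemma bgc_gt (M : ℕ) : M < bgc (GG (3 * M + 5)) := by
  set h := 3 * M + 5 with hh
  have hne : Fintype.card (W h) + 1 ∈ {m | 1 ≤ m ∧ ∀ (n : ℕ) (c : Fin n → W h), IsCyc (GG h) c →
      ¬ LocGeo (GG h) m c → ∀ i, Side (GG h) m c i →
      ∃ v z, v ∈ arc m i ∧ z ∉ arc m i ∧ Bridge (GG h) ((m + 1) / 2) c v z} := by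
    refine ⟨by omega, fun n c hc hl => absurd (fun i j _ => ?_) hl⟩
    have := Fintype.card_le_of_injective c hc.2.1
    rw [Fintype.card_fin] at this
    simp only [dC]
    omega
  obtain ⟨h1, hm⟩ := Nat.sInf_mem ⟨_, hne⟩
  by_contra hlt
  change 1 ≤ bgc (GG h) at h1
  change ∀ (n : ℕ) (c : Fin n → W h), IsCyc (GG h) c →
      ¬ LocGeo (GG h) (bgc (GG h)) c → ∀ i, Side (GG h) (bgc (GG h)) c i →
      ∃ v z, v ∈ arc (bgc (GG h)) i ∧ z ∉ arc (bgc (GG h)) i ∧
        Bridge (GG h) ((bgc (GG h) + 1) / 2) c v z at hm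
  generalize bgc (GG h) = m at *
  have hp := Nat.two_pow_pos h
  have hc := cyc h (by omega)
  have up : ∀ t (i j : Fin (2 * h + 2 ^ h - 1)), j.val = i.val + t →
      (GG h).dist (cc h i) (cc h j) ≤ t := by
    intro t
    induction t with
    | zero => intro i j e; rw [Fin.ext e]; simp
    | succ t ih =>
      intro i j e
      have := j.isLt
      have a := hc.2.2 ⟨i.val + t, by omega⟩ j (by rw [Nat.mod_eq_of_lt (by simp only; omega)]; omega)
      have b := ih i ⟨i.val + t, by omega⟩ rfl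
      have c := (conn h).dist_triangle (u := cc h i) (v := cc h ⟨i.val + t, by omega⟩) (w := cc h j)
      rw [SimpleGraph.dist_eq_one_iff_adj.2 a] at c
      omega
  have hs : (GG h).dist (cc h ⟨m + 2, by omega⟩) (cc h ⟨2 * m + 3, by omega⟩) = m + 1 := by
    apply le_antisymm (up _ _ _ (by simp only; omega))
    have := lev (cc h ⟨m + 2, by omega⟩) (cc h ⟨2 * m + 3, by omega⟩)
    have e1 : (cc h ⟨m + 2, by omega⟩).1.1 = m + 2 := by
      simp only [cc, gg]; rw [if_pos (by omega)]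
    have e2 : (cc h ⟨2 * m + 3, by omega⟩).1.1 = 2 * m + 3 := by
      simp only [cc, gg]; rw [if_pos (by omega)]
    omega
  have hd : dC (⟨m + 2, by omega⟩ : Fin (2 * h + 2 ^ h - 1)) ⟨2 * m + 3, by omega⟩ = m + 1 := by
    simp only [dC, Nat.dist]; omega
  obtain ⟨v, z, ⟨t, ht, hv⟩, -, b1, b2⟩ := hm _ (cc h) hc (fun hl => by
    have := hl _ _ (hs.trans hd.symm); omega) ⟨m + 2, by omega⟩
    ⟨⟨2 * m + 3, by omega⟩, by rw [Nat.mod_eq_of_lt (by simp only; omega)]; simp only; omega, hs, hd⟩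
  rw [Nat.mod_eq_of_lt (by simp only; omega)] at hv
  simp only at hv
  have l1 := lev (cc h v) (cc h z)
  have l2 := lev (cc h z) (cc h v)
  have l3 := lg (cc h z) (cc h v)
  rw [SimpleGraph.dist_comm] at l2 l3
  have e1 : (cc h v).1 = (v.val, 2 ^ v.val - 1) := by simp only [cc, gg]; rw [if_pos (by omega)]
  have e2 : (cc h z).1 = gg h z.val := rfl
  rw [e1, e2] at l1 l2 l3
  have e3 : 2 ^ v.val - 1 + 1 = 2 ^ v.val := by have := Nat.two_pow_pos v.val; omega
  simp only [e3, Nat.log_pow (by omega : 1 < 2)] at l3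
  simp only [dC, Nat.dist] at b2
  unfold gg at l1 l2 l3
  split_ifs at l1 l2 l3
  · simp only at l1 l2; omega
  · simp only at l1 l2; omega
  · simp at l3; omega

theorem result : ∀ c : ℝ, ∃ (V : Type) (_ : Fintype V) (G : SimpleGraph V), G.Connected ∧
    c * (BGC G : ℝ) < (bgc G : ℝ) := by
  intro c
  obtain ⟨N, hN⟩ := exists_nat_ge c
  refine ⟨W (3 * (3 * N) + 5), inferInstance, GG _, conn _, ?_⟩
  have h1 : (BGC (GG (3 * (3 * N) + 5)) : ℝ) ≤ 3 := by exact_mod_cast BGC_le _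
  have h2 : ((3 * N : ℕ) : ℝ) < bgc (GG (3 * (3 * N) + 5)) := by exact_mod_cast bgc_gt _
  have h3 : (0 : ℝ) ≤ BGC (GG (3 * (3 * N) + 5)) := by positivity
  have h4 : (0 : ℝ) ≤ N := by positivity
  push_cast at h2
  nlinarith

end Pool.Agent.Results.MP_936e79_co.Unbounded
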